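import Pool.Agent.K1H92.SD.Conv
import Pool.Agent.K1H14.SE.Stm

/-!
# Project SE (helper14): existence of a balanced exceptional Tate class, rank two modulo four
-/

set_option autoImplicit false

namespace Pool.Agent.K1H99.SE

open Pool.Agent.K1H14.KS Pool.Agent.K1H14.SD Pool.Agent.K1H14.SE Pool.Agent.K1H92.SD
open CliffordAlgebra QuadraticMap
open scoped symmDiff

universe u

section abs

variable {C : Type u} [Ring C] [Algebra ℂ C] {d : ℕ} {M : Finset (Fin d) → C} {st : C →ₗ[ℂ] C}
  {tr : C →ₗ[ℂ] ℂ}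

lemma tr_pairF (E : FullCl M st) (hT : IsTrF M tr) (L L' : Finset (Fin d)) :
    tr (M L * st (M L')) = if L = L' then 1 else 0 := by
  split_ifs with h
  · subst h
    have h1 : M L * st (M L) = 1 := by
      have h2 := E.st_inv L
      rw [E.st_M, smul_mul_assoc] at h2
      rw [E.st_M, mul_smul_comm, h2]
    rw [h1, ← E.one, hT.1, if_pos rfl]
  · obtain ⟨ε, -, h2⟩ := E.mul L L'
    rw [E.st_M L', mul_smul_comm, h2, map_smul, map_smul, hT.1, if_neg, smul_zero, smul_zero]
    intro h3
    apply h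
    rwa [← Finset.bot_eq_empty, symmDiff_eq_bot] at h3

/-- anticommuting monomials -/
lemma anti (E : FullCl M st) {K L : Finset (Fin d)} (h : Odd (K.card * L.card + (K ∩ L).card)) :
    ∃ ε : ℂ, (ε = 1 ∨ ε = -1) ∧ M K * M L - M L * M K = (2 * ε) • M (K ∆ L) := by
  obtain ⟨ε, hε, h1⟩ := E.mul K L
  have h2 := E.comm K L
  rw [h.neg_one_pow, neg_smul, one_smul] at h2
  refine ⟨ε, hε, ?_⟩
  have h3 : M L * M K = -(M K * M L) := by rw [h2, neg_neg]
  rw [h3, sub_neg_eq_add, ← two_smul ℂ, h1, smul_smul]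

end abs

section cl

variable {T : Type u} [AddCommGroup T] [Module ℂ T] {Q : QuadraticForm ℂ T} {d : ℕ}
  {b : Module.Basis (Fin d) ℂ T}

lemma pairW_MF (hb : ONB Q b) {i j : Fin d} (hij : i ≠ j) :
    ∃ ε : ℂ, (ε = 1 ∨ ε = -1) ∧
      ((pairW Q (b i) (b j) : W Q) : CliffordAlgebra Q) = ε • MF (Q := Q) b {i, j} := by
  have hp : ([i, j] : List (Fin d)).Perm (({i, j} : Finset (Fin d)).sort (· ≤ ·)) := by
    apply List.perm_of_nodup_nodup_toFinset_eq
    · simp [hij]
    · exact Finset.sort_nodup _ _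
    · rw [Finset.sort_toFinset]
      simp
  obtain ⟨ε, hε, h⟩ := K1H96.SD.mono_perm hb.anti hp
  refine ⟨ε, hε, ?_⟩
  show ι Q (b i) * ι Q (b j) = ε • MF (Q := Q) b {i, j}
  unfold MF
  rw [← h, mono_cons, mono_cons, mono_nil, mul_one]

lemma ev_central (lam : W Q →ₗ[ℂ] ℂ) {z : W Q} (hz : IsCentralNormOne z) (w w' : W Q) (u v : T) :
    ev lam (z * w) (z * w') u v = ev lam w w' u v := by
  obtain ⟨hc, hn⟩ := hz
  have hn' : rv Q z * z = 1 := Subtype.ext hn
  have hr : rv Q (z * w) = rv Q w * rv Q z := by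
    apply Subtype.ext
    show reverse ((z : CliffordAlgebra Q) * (w : CliffordAlgebra Q)) =
      reverse (w : CliffordAlgebra Q) * reverse (z : CliffordAlgebra Q)
    exact reverse.map_mul _ _
  rw [ev_apply, ev_apply, hr]
  congr 1
  calc rv Q w * rv Q z * pairW Q u v * (z * w')
      = rv Q w * rv Q z * (pairW Q u v * z) * w' := by noncomm_ring
    _ = rv Q w * rv Q z * (z * pairW Q u v) * w' := by rw [hc]
    _ = rv Q w * (rv Q z * z) * pairW Q u v * w' := by noncomm_ring
    _ = rv Q w * pairW Q u v * w' := by rw [hn', mul_one]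

lemma FF_bal (b : Module.Basis (Fin d) ℂ T) (l₁ l₂ : W Q →ₗ[ℂ] ℂ) : IsBal (FF b l₁ l₂) := by
  intro z hz v
  rw [FF_apply, FF_apply]
  simp only [LinearMap.mulLeft_apply, ev_central _ hz]

end cl

theorem t_CONVE (h1 : S_LF1.{u}) (h2 : S_FTR.{u}) : S_CONVE.{u} := by
  intro T _ _ Q hQ hd h10
  have hfd : FiniteDimensional ℂ T := Module.finite_of_finrank_pos (by omega)
  obtain ⟨b, hb⟩ := exists_onb hQ
  obtain ⟨E, hev, -⟩ := h1 Q _ b hd hb
  obtain ⟨-, tr, hT⟩ := h2 (MF (Q := Q) b) (reverse (Q := Q)) E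
  obtain ⟨K, -, hKc⟩ := Finset.exists_subset_card_eq
    (s := (Finset.univ : Finset (Fin (Module.finrank ℂ T)))) (n := 6)
    (by rw [Finset.card_univ, Fintype.card_fin]; omega)
  obtain ⟨q, hqK⟩ : ∃ q, q ∉ K := by
    by_contra hcon
    push Not at hcon
    have h1 : K = Finset.univ := Finset.eq_univ_iff_forall.2 hcon
    rw [h1, Finset.card_univ, Fintype.card_fin] at hKc
    omega
  obtain ⟨p, hpK⟩ : K.Nonempty := Finset.card_pos.1 (by omega)
  have hpq : p ≠ q := fun h => hqK (h ▸ hpK)
  set K0 : Finset (Fin (Module.finrank ℂ T)) := {p, q} with hK0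
  set K1 : Finset (Fin (Module.finrank ℂ T)) := K0 ∆ K with hK1
  have hK0c : K0.card = 2 := Finset.card_pair hpq
  have hint : K0 ∩ K = {p} := by
    ext x
    simp only [hK0, Finset.mem_inter, Finset.mem_insert, Finset.mem_singleton]
    constructor
    · rintro ⟨h | h, h'⟩
      · exact h
      · exact absurd (h ▸ h') hqK
    · rintro rfl
      exact ⟨Or.inl rfl, hpK⟩
  have hK1' : K1 = insert q (K.erase p) := by
    ext x
    simp only [hK1, hK0, Finset.mem_symmDiff, Finset.mem_insert, Finset.mem_singleton,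
      Finset.mem_erase]
    constructor
    · rintro (⟨h | h, h'⟩ | ⟨h, h'⟩)
      · exact absurd (h ▸ hpK) h'
      · exact Or.inl h
      · push Not at h'
        exact Or.inr ⟨h'.1, h⟩
    · rintro (h | ⟨h, h'⟩)
      · exact Or.inl ⟨Or.inr h, fun h' => hqK (h ▸ h')⟩
      · refine Or.inr ⟨h', ?_⟩
        rintro (h1 | h1)
        · exact h h1
        · exact hqK (h1 ▸ h')
  have hK1c : K1.card = 6 := by
    rw [hK1', Finset.card_insert_of_notMem, Finset.card_erase_of_mem hpK]
    · omega
    · intro h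
      exact hqK (Finset.mem_of_mem_erase h)
  have hint1 : K0 ∩ K1 = {q} := by
    rw [hK1']
    ext x
    simp only [hK0, Finset.mem_inter, Finset.mem_insert, Finset.mem_singleton, Finset.mem_erase]
    constructor
    · rintro ⟨h | h, h'⟩
      · rcases h' with h' | h'
        · exact h'
        · exact absurd h h'.1
      · exact h
    · rintro rfl
      exact ⟨Or.inr rfl, Or.inl rfl⟩
  have hK01 : K0 ∆ K1 = K := by rw [hK1, symmDiff_symmDiff_cancel_left]
  set M := MF (Q := Q) b with hM
  have hmem : ∀ L : Finset (Fin (Module.finrank ℂ T)), Even L.card →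
      M L ∈ CliffordAlgebra.even Q := fun L hL =>
    (hev _).1 (Submodule.subset_span ⟨L, hL, rfl⟩)
  have he0 : Even K0.card := by rw [hK0c]; decide
  have he1 : Even K1.card := by rw [hK1c]; decide
  have heK : Even K.card := by rw [hKc]; decide
  set m0 : W Q := ⟨M K0, hmem K0 he0⟩ with hm0
  set m1 : W Q := ⟨M K1, hmem K1 he1⟩ with hm1
  set x : W Q := ⟨M K, hmem K heK⟩ with hx
  set l₁ : W Q →ₗ[ℂ] ℂ := tr ∘ₗ LinearMap.mulRight ℂ (reverse (M K1)) ∘ₗ
    (CliffordAlgebra.even Q).val.toLinearMap with hl₁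
  set l₂ : W Q →ₗ[ℂ] ℂ := tr ∘ₗ LinearMap.mulRight ℂ (reverse (M K0)) ∘ₗ
    (CliffordAlgebra.even Q).val.toLinearMap with hl₂
  have hl₁a : ∀ y : W Q, l₁ y = tr ((y : CliffordAlgebra Q) * reverse (M K1)) := fun y => rfl
  have hl₂a : ∀ y : W Q, l₂ y = tr ((y : CliffordAlgebra Q) * reverse (M K0)) := fun y => rfl
  have hrx : reverse (x : CliffordAlgebra Q) = -(x : CliffordAlgebra Q) := by
    show reverse (M K) = -M K
    rw [E.st_M K, hKc]
    norm_num
  have hstx : rv Q x = -x := Subtype.ext hrx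
  have hrv1 : rv Q (1 : W Q) = 1 := by
    apply Subtype.ext
    show reverse (1 : CliffordAlgebra Q) = 1
    exact reverse.map_one
  refine ⟨FF b l₁ l₂, x, FF_tate b hb l₁ l₂, FF_bal b l₁ l₂, ⟨hrx, ?_⟩, ?_⟩
  · obtain ⟨ε, hε, h3⟩ := anti E (K := K0) (L := K1) (by
      rw [hK0c, hK1c, hint1, Finset.card_singleton]; decide)
    rw [hK01] at h3
    have hε0 : (2 * ε : ℂ) ≠ 0 := by rcases hε with rfl | rfl <;> norm_num
    have h4 : x = (2 * ε)⁻¹ • (m0 * m1 - m1 * m0) := by
      apply Subtype.ext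
      show M K = (2 * ε)⁻¹ • (M K0 * M K1 - M K1 * M K0)
      rw [h3, smul_smul, inv_mul_cancel₀ hε0, one_smul]
    rw [h4]
    exact Submodule.smul_mem _ _ (Submodule.subset_span ⟨m0, m1, rfl⟩)
  · intro hk
    have h1 := hk (fun _ => 1)
    rw [Fin.sum_univ_four] at h1
    simp only [FF_apply] at h1
    have e01 : (0 : Fin 4) ≠ 1 := by decide
    have e02 : (0 : Fin 4) ≠ 2 := by decide
    have e03 : (0 : Fin 4) ≠ 3 := by decide
    have e12 : (1 : Fin 4) ≠ 2 := by decide
    have e13 : (1 : Fin 4) ≠ 3 := by decide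
    have e23 : (2 : Fin 4) ≠ 3 := by decide
    simp only [Function.update_self, Function.update_of_ne e01, Function.update_of_ne e01.symm,
      Function.update_of_ne e02, Function.update_of_ne e02.symm, Function.update_of_ne e12,
      Function.update_of_ne e12.symm, Function.update_of_ne e03, Function.update_of_ne e03.symm,
      Function.update_of_ne e13, Function.update_of_ne e13.symm, Function.update_of_ne e23,
      Function.update_of_ne e23.symm, LinearMap.mulLeft_apply, mul_one, ev_apply, hstx,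
      hrv1, one_mul] at h1
    rw [← Finset.sum_add_distrib, ← Finset.sum_add_distrib, ← Finset.sum_add_distrib] at h1
    have hterm : ∀ i j, l₁ (-x * pairW Q (b i) (b j)) * l₂ (pairW Q (b i) (b j)) +
        l₁ (pairW Q (b i) (b j) * x) * l₂ (pairW Q (b i) (b j)) +
        l₁ (pairW Q (b i) (b j)) * l₂ (-x * pairW Q (b i) (b j)) +
        l₁ (pairW Q (b i) (b j)) * l₂ (pairW Q (b i) (b j) * x) =
        if i ≠ j ∧ ({i, j} : Finset (Fin (Module.finrank ℂ T))) = K0
          then l₁ (m0 * x - x * m0) else 0 := by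
      intro i j
      by_cases hij : i = j
      · rw [if_neg (by simp [hij]), hij, pairW_self hb, mul_one, one_mul, map_neg, map_neg]
        ring
      · obtain ⟨ε, hε, hP⟩ := pairW_MF hb hij
        have hijc : ({i, j} : Finset (Fin (Module.finrank ℂ T))).card = 2 := Finset.card_pair hij
        have h2 : l₁ (pairW Q (b i) (b j)) = 0 := by
          rw [hl₁a, hP, smul_mul_assoc, map_smul, tr_pairF E hT, if_neg, smul_zero]
          intro h3
          rw [← h3, hijc] at hK1c
          omega
        have h3 : l₂ (pairW Q (b i) (b j)) =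
            ε * if ({i, j} : Finset (Fin (Module.finrank ℂ T))) = K0 then 1 else 0 := by
          rw [hl₂a, hP, smul_mul_assoc, map_smul, tr_pairF E hT, smul_eq_mul]
        rw [h2, h3, zero_mul, zero_mul, add_zero, add_zero]
        by_cases h4 : ({i, j} : Finset (Fin (Module.finrank ℂ T))) = K0
        · have hP' : pairW Q (b i) (b j) = ε • m0 := by
            apply Subtype.ext
            rw [hP, h4]
            rfl
          rw [if_pos h4, if_pos ⟨hij, h4⟩, hP', map_sub]
          have h5 : l₁ (-x * ε • m0) = -(ε * l₁ (x * m0)) := by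
            rw [mul_smul_comm, map_smul, neg_mul, map_neg, smul_eq_mul]
            ring
          have h6 : l₁ ((ε • m0) * x) = ε * l₁ (m0 * x) := by
            rw [smul_mul_assoc, map_smul, smul_eq_mul]
          rw [h5, h6]
          rcases hε with rfl | rfl <;> ring
        · rw [if_neg h4, if_neg (fun h => h4 h.2)]
          ring
    have h2 : ∑ i, ∑ j, (if i ≠ j ∧ ({i, j} : Finset (Fin (Module.finrank ℂ T))) = K0
          then l₁ (m0 * x - x * m0) else 0) = 0 := by
      refine Eq.trans ?_ h1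
      refine Finset.sum_congr rfl fun i _ => ?_
      rw [← Finset.sum_add_distrib, ← Finset.sum_add_distrib, ← Finset.sum_add_distrib]
      refine Finset.sum_congr rfl fun j _ => ?_
      rw [← hterm i j]
    rw [← Finset.sum_product', ← Finset.sum_filter, Finset.sum_const, nsmul_eq_mul,
      mul_eq_zero] at h2
    rcases h2 with h2 | h2
    · rw [Nat.cast_eq_zero, Finset.card_eq_zero] at h2
      have h3 : (p, q) ∈ (Finset.univ ×ˢ Finset.univ : Finset (Fin (Module.finrank ℂ T) ×
          Fin (Module.finrank ℂ T))).filter fun z =>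
          z.1 ≠ z.2 ∧ ({z.1, z.2} : Finset (Fin (Module.finrank ℂ T))) = K0 := by
        rw [Finset.mem_filter]
        exact ⟨by simp, hpq, rfl⟩
      rw [h2] at h3
      exact absurd h3 (Finset.notMem_empty _)
    · obtain ⟨ε, hε, h3⟩ := anti E (K := K0) (L := K) (by
        rw [hK0c, hKc, hint, Finset.card_singleton]; decide)
      have h5 : ((m0 * x - x * m0 : W Q) : CliffordAlgebra Q) = (2 * ε) • M K1 := h3
      rw [hl₁a, h5, smul_mul_assoc, map_smul, tr_pairF E hT, if_pos rfl, smul_eq_mul,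
        mul_one] at h2
      rcases hε with rfl | rfl <;> norm_num at h2

end Pool.Agent.K1H99.SE
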